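import Pool.Agent.H310R3.Inh.Stmts

/-! # H310INH TaskIntv: infinite internal sets contain intervals (helper471) -/

set_option linter.all false

namespace Pool.Agent.H471R3.Inh

open FirstOrder FirstOrder.Language
open Pool.Agent.Helper672.ZFA
open Pool.Agent.H310 (FinP Gd)
open Pool.Agent.H310R3.Inh

theorem taskIntv : TaskIntv := by
  intro M _ _ Q _ lt hQ T hT hinf
  have hlt : Int M (fun q : Q × Q => lt q.1 q.2) := hQ.int
  obtain ⟨c, hc, hsup⟩ := hQ.sup (fun x => T x.1) (by (repeat' (first | with_reducible exact IntF.id | with_reducible exact IntF.fst' | with_reducible exact IntF.snd' | with_reducible exact IntF.const _ | with_reducible exact Int.const _ | assumption | with_reducible apply Int.and | with_reducible apply Int.or | with_reducible apply Int.not | with_reducible apply Int.imp | with_reducible apply Int.iff | with_reducible apply Int.ne | with_reducible apply Int.eq | with_reducible apply Int.mem | with_reducible apply Int.subset | with_reducible apply Int.ltN | with_reducible apply Int.leN | with_reducible apply Int.fin | with_reducible apply Int.unique | with_reducible apply Int.all | with_reducible apply Int.ex | with_reducible apply IntF.fst | with_reducible apply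 IntF.snd | with_reducible apply IntF.app | with_reducible apply IntF.ite | with_reducible apply IntF.sep | with_reducible apply IntF.lam | with_reducible apply IntF.insert | with_reducible apply IntF.singleton | with_reducible apply IntF.union | with_reducible apply IntF.inter | with_reducible apply IntF.sdiff | with_reducible apply IntF.isUnion | with_reducible apply IntF.iimage | with_reducible apply IntF.the | with_reducible apply IntF.irec | with_reducible_and_instances apply IntF.add | with_reducible_and_instances apply IntF.mul | with_reducible apply IntF.succ | with_reducible apply IntF.val | with_reducible apply IntF.mk | (with_reducible refine Int.comp ?_ ?_; assumption) | (with_reducible refine Int.comp₂ ?_ ?_ ?_; assumption) | (with_reducible refine Int.comp₃ ?_ ?_ ?_ ?_; assumption) | (with_reducible refine IntF.comp ?_ ?_; assumption) | (with_reducible refine IntF.comp₂ ?_ ?_ ?_; assumption) | (with_reducible refine IntF.comp₃ ?_ ?_ ?_ ?_; assumption) | with_reducible apply IntF.pair)))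
  -- a point of `T` outside `c`
  obtain ⟨p, hpT, hpc⟩ : ∃ p, T p ∧ ¬ p ∈ c := by
    by_contra hcon
    push Not at hcon
    exact hinf ⟨c, hc, hcon⟩
  have i1 : Int M (fun r : Q => r ∈ c ∧ lt r p) := (by (repeat' (first | with_reducible exact IntF.id | with_reducible exact IntF.fst' | with_reducible exact IntF.snd' | with_reducible exact IntF.const _ | with_reducible exact Int.const _ | assumption | with_reducible apply Int.and | with_reducible apply Int.or | with_reducible apply Int.not | with_reducible apply Int.imp | with_reducible apply Int.iff | with_reducible apply Int.ne | with_reducible apply Int.eq | with_reducible apply Int.mem | with_reducible apply Int.subset | with_reducible apply Int.ltN | with_reducible apply Int.leN | with_reducible apply Int.fin | with_reducible apply Int.unique | with_reducible apply Int.all | with_reducible apply Int.ex | with_reducible apply IntF.fst | with_reducible apply IntF.snd | with_reducible apply IntF.app | with_reducible apply IntF.ite | with_reducible apply IntF.sep | with_reducible apply IntF.lam | with_reducible apply IntF.insert | with_reducible apply IntF.singleton | with_reducible apply IntF.union | with_reducible apply IntF.inter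 | with_reducible apply IntF.sdiff | with_reducible apply IntF.isUnion | with_reducible apply IntF.iimage | with_reducible apply IntF.the | with_reducible apply IntF.irec | with_reducible_and_instances apply IntF.add | with_reducible_and_instances apply IntF.mul | with_reducible apply IntF.succ | with_reducible apply IntF.val | with_reducible apply IntF.mk | (with_reducible refine Int.comp ?_ ?_; assumption) | (with_reducible refine Int.comp₂ ?_ ?_ ?_; assumption) | (with_reducible refine Int.comp₃ ?_ ?_ ?_ ?_; assumption) | (with_reducible refine IntF.comp ?_ ?_; assumption) | (with_reducible refine IntF.comp₂ ?_ ?_ ?_; assumption) | (with_reducible refine IntF.comp₃ ?_ ?_ ?_ ?_; assumption) | with_reducible apply IntF.pair)))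
  have i2 : Int M (fun r : Q => r ∈ c ∧ lt p r) := (by (repeat' (first | with_reducible exact IntF.id | with_reducible exact IntF.fst' | with_reducible exact IntF.snd' | with_reducible exact IntF.const _ | with_reducible exact Int.const _ | assumption | with_reducible apply Int.and | with_reducible apply Int.or | with_reducible apply Int.not | with_reducible apply Int.imp | with_reducible apply Int.iff | with_reducible apply Int.ne | with_reducible apply Int.eq | with_reducible apply Int.mem | with_reducible apply Int.subset | with_reducible apply Int.ltN | with_reducible apply Int.leN | with_reducible apply Int.fin | with_reducible apply Int.unique | with_reducible apply Int.all | with_reducible apply Int.ex | with_reducible apply IntF.fst | with_reducible apply IntF.snd | with_reducible apply IntF.app | with_reducible apply IntF.ite | with_reducible apply IntF.sep | with_reducible apply IntF.lam | with_reducible apply IntF.insert | with_reducible apply IntF.singleton | with_reducible apply IntF.union | with_reducible apply IntF.inter | with_reducible apply IntF.sdiff | with_reducible apply IntF.isUnion | with_reducible apply IntF.iimage | with_reducible apply IntF.the | with_reducible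 apply IntF.irec | with_reducible_and_instances apply IntF.add | with_reducible_and_instances apply IntF.mul | with_reducible apply IntF.succ | with_reducible apply IntF.val | with_reducible apply IntF.mk | (with_reducible refine Int.comp ?_ ?_; assumption) | (with_reducible refine Int.comp₂ ?_ ?_ ?_; assumption) | (with_reducible refine Int.comp₃ ?_ ?_ ?_ ?_; assumption) | (with_reducible refine IntF.comp ?_ ?_; assumption) | (with_reducible refine IntF.comp₂ ?_ ?_ ?_; assumption) | (with_reducible refine IntF.comp₃ ?_ ?_ ?_ ?_; assumption) | with_reducible apply IntF.pair)))
  have i3 : Int M (fun q : Q × Q => lt q.2 q.1) := (by (repeat' (first | with_reducible exact IntF.id | with_reducible exact IntF.fst' | with_reducible exact IntF.snd' | with_reducible exact IntF.const _ | with_reducible exact Int.const _ | assumption | with_reducible apply Int.and | with_reducible apply Int.or | with_reducible apply Int.not | with_reducible apply Int.imp | with_reducible apply Int.iff | with_reducible apply Int.ne | with_reducible apply Int.eq | with_reducible apply Int.mem | with_reducible apply Int.subset | with_reducible apply Int.ltN | with_reducible apply Int.leN | with_reducible apply Int.fin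 | with_reducible apply Int.unique | with_reducible apply Int.all | with_reducible apply Int.ex | with_reducible apply IntF.fst | with_reducible apply IntF.snd | with_reducible apply IntF.app | with_reducible apply IntF.ite | with_reducible apply IntF.sep | with_reducible apply IntF.lam | with_reducible apply IntF.insert | with_reducible apply IntF.singleton | with_reducible apply IntF.union | with_reducible apply IntF.inter | with_reducible apply IntF.sdiff | with_reducible apply IntF.isUnion | with_reducible apply IntF.iimage | with_reducible apply IntF.the | with_reducible apply IntF.irec | with_reducible_and_instances apply IntF.add | with_reducible_and_instances apply IntF.mul | with_reducible apply IntF.succ | with_reducible apply IntF.val | with_reducible apply IntF.mk | (with_reducible refine Int.comp ?_ ?_; assumption) | (with_reducible refine Int.comp₂ ?_ ?_ ?_; assumption) | (with_reducible refine Int.comp₃ ?_ ?_ ?_ ?_; assumption) | (with_reducible refine IntF.comp ?_ ?_; assumption) | (with_reducible refine IntF.comp₂ ?_ ?_ ?_; assumption) | (with_reducible refine IntF.comp₃ ?_ ?_ ?_ ?_; assumption) | with_reducible apply IntF.pair)))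
  -- the left end
  obtain ⟨a, hap, ha⟩ : ∃ a, lt a p ∧ ∀ r, r ∈ c → lt r p → ¬ lt a r := by
    by_cases h : ∃ r, r ∈ c ∧ lt r p
    · obtain ⟨a, h1, h2⟩ := Pool.Agent.H310.FinP.exists_min (lt := fun a b => lt b a) i1
        ⟨c, hc, fun a ha => ha.1⟩ i3 hQ.irrefl (fun a b c h1 h2 => hQ.trans _ _ _ h2 h1) h
      exact ⟨a, h1.2, fun r hr hrp h3 => h2 r ⟨hr, hrp⟩ h3⟩
    · obtain ⟨a, ha⟩ := hQ.noMin p
      exact ⟨a, ha, fun r hr hrp => absurd ⟨r, hr, hrp⟩ h⟩
  -- the right end
  obtain ⟨b, hpb, hb⟩ : ∃ b, lt p b ∧ ∀ r, r ∈ c → lt p r → ¬ lt r b := by
    by_cases h : ∃ r, r ∈ c ∧ lt p r
    · obtain ⟨b, h1, h2⟩ := Pool.Agent.H310.FinP.exists_min (lt := lt) i2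
        ⟨c, hc, fun a ha => ha.1⟩ hlt hQ.irrefl hQ.trans h
      exact ⟨b, h1.2, fun r hr hrp h3 => h2 r ⟨hr, hrp⟩ h3⟩
    · obtain ⟨b, hb⟩ := hQ.noMax p
      exact ⟨b, hb, fun r hr hrp => absurd ⟨r, hr, hrp⟩ h⟩
  refine ⟨a, b, hQ.trans _ _ _ hap hpb, fun q haq hqb => ?_⟩
  -- `q` is not in `c` unless it is `p`
  have hqc : ¬ q ∈ c := by
    intro hq
    rcases hQ.total q p with h | h | h
    · exact ha q hq h haq
    · rw [h] at hq
      exact hpc hq
    · exact hb q hq h hqb
  have hcut : ∀ r, r ∈ c → (lt r p ↔ lt r q) := by
    intro r hr
    constructor
    · intro h
      rcases hQ.total r q with h1 | h1 | h1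
      · exact h1
      · rw [h1] at hr
        exact absurd hr hqc
      · exact absurd (hQ.trans _ _ _ haq h1) (ha r hr h)
    · intro h
      rcases hQ.total r p with h1 | h1 | h1
      · exact h1
      · rw [h1] at hr
        exact absurd hr hpc
      · exact absurd (hQ.trans _ _ _ h hqb) (hb r hr h1)
  exact (hsup 0 p q hpc hqc hcut).1 hpT

end Pool.Agent.H471R3.Inh
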